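import Mathlib

/-! Approximation of groups by general linear groups with the normalised rank distance. -/

set_option autoImplicit false

universe u v

namespace Pool.Agent.TH194.LS

/-- The normalised rank distance `rank (A - B) / n` on `GL_n(K)`. -/
noncomputable def dRank {K : Type u} [Field K] {n : ℕ} (A B : GL (Fin n) K) : ℝ :=
  (((A : Matrix (Fin n) (Fin n) K) - (B : Matrix (Fin n) (Fin n) K)).rank : ℝ) / n

/-- `G` is `ε`-approximable by the groups `GL_n(K)`, `n ≥ 1`: for every finite set `F` of elements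
of `G` and every `δ > 0` there are `n ≥ 1` and a map `φ : G → GL_n(K)` such that the rank distance
of `φ g * φ h` and `φ (g * h)` is less than `δ` for all `g, h ∈ F`, and the rank distance of `φ g`
and `φ h` is more than `ε - δ` for all distinct `g, h ∈ F`. -/
def Approximable (K : Type u) [Field K] (ε : ℝ) (G : Type v) [Group G] : Prop :=
  ∀ (F : Finset G) (δ : ℝ), 0 < δ → ∃ (n : ℕ) (φ : G → GL (Fin n) K), 1 ≤ n ∧
    (∀ g ∈ F, ∀ h ∈ F, dRank (φ g * φ h) (φ (g * h)) < δ) ∧
    ∀ g ∈ F, ∀ h ∈ F, g ≠ h → ε - δ < dRank (φ g) (φ h)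

end Pool.Agent.TH194.LS
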