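import Mathlib

/-! Ranks of commuting involutions. -/

set_option autoImplicit false
set_option linter.unusedSectionVars false

namespace Pool.Agent.TH194.LS

open Module LinearMap

section

variable {K : Type*} [Field K] {W : Type*} [AddCommGroup W] [Module K W] [FiniteDimensional K W]

/-- the rank of an endomorphism -/
noncomputable def rk (T : W →ₗ[K] W) : ℕ := finrank K (range T)

theorem rk_add_le (A B : W →ₗ[K] W) : rk (A + B) ≤ rk A + rk B := by
  unfold rk
  refine le_trans (Submodule.finrank_mono (t := range A ⊔ range B) ?_)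
    (Submodule.finrank_add_le_finrank_add_finrank _ _)
  rintro _ ⟨x, rfl⟩
  exact Submodule.add_mem_sup ⟨x, rfl⟩ ⟨x, rfl⟩

theorem rk_zero : rk (0 : W →ₗ[K] W) = 0 := by
  unfold rk
  rw [range_zero, finrank_bot]

theorem rk_neg (A : W →ₗ[K] W) : rk (-A) = rk A := by
  unfold rk
  rw [range_neg]

theorem rk_smul_le (c : K) (A : W →ₗ[K] W) : rk (c • A) ≤ rk A := by
  unfold rk
  refine Submodule.finrank_mono ?_
  rintro _ ⟨x, rfl⟩
  exact ⟨c • x, by simp⟩

theorem rk_split {e T : W →ₗ[K] W} (he : e * e = e) (hc : e * T = T * e) :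
    rk (e * T) + rk ((1 - e) * T) ≤ rk T := by
  unfold rk
  have h1 : range (e * T) ≤ range T := by
    rw [hc]
    rintro _ ⟨x, rfl⟩
    exact ⟨e x, rfl⟩
  have h2 : range ((1 - e) * T) ≤ range T := by
    have : (1 - e) * T = T * (1 - e) := by rw [sub_mul, mul_sub, hc, one_mul, mul_one]
    rw [this]
    rintro _ ⟨x, rfl⟩
    exact ⟨(1 - e) x, rfl⟩
  have h3 : Disjoint (range (e * T)) (range ((1 - e) * T)) := by
    rw [Submodule.disjoint_def]
    rintro x ⟨y, hy⟩ ⟨z, hz⟩
    have h4 : e x = x := by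
      rw [← hy]
      show (e * (e * T)) y = (e * T) y
      rw [← mul_assoc, he]
    have h5 : e x = 0 := by
      rw [← hz]
      show (e * ((1 - e) * T)) z = 0
      rw [← mul_assoc, mul_sub, mul_one, he, sub_self, zero_mul]
      rfl
    rw [← h4, h5]
  have h6 := Submodule.finrank_sup_add_finrank_inf_eq (range (e * T)) (range ((1 - e) * T))
  rw [h3.eq_bot, finrank_bot, add_zero] at h6
  rw [← h6]
  exact Submodule.finrank_mono (sup_le h1 h2)

/-- commuting involutions, characteristic not two -/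
theorem sum_rk (h2 : (2 : K) ≠ 0) : ∀ (k : ℕ) (ρ : (Fin k → ℤˣ) →* (W →ₗ[K] W)) (T : W →ₗ[K] W),
    (∀ g, ρ g * T = T * ρ g) → 2 * ∑ g, rk ((ρ g - 1) * T) ≤ 2 ^ k * rk T := by
  intro k
  induction k with
  | zero =>
    intro ρ T _
    have : ∀ g : Fin 0 → ℤˣ, rk ((ρ g - 1) * T) = 0 := by
      intro g
      rw [Subsingleton.elim g 1, map_one, sub_self, zero_mul, rk_zero]
    simp [this]
  | succ k ih =>
    intro ρ T hT
    -- the restricted representation and the last involution
    let ι : (Fin k → ℤˣ) →* (Fin (k + 1) → ℤˣ) :=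
      { toFun := fun g => Fin.cons 1 g
        map_one' := by
          funext i
          refine Fin.cases rfl (fun j => ?_) i
          simp
        map_mul' := by
          intro g h
          funext i
          refine Fin.cases (by simp) (fun j => ?_) i
          simp }
    let s : W →ₗ[K] W := ρ (Fin.cons (-1) 1)
    have hs2 : s * s = 1 := by
      show ρ _ * ρ _ = 1
      rw [← map_mul, ← map_one ρ]
      congr 1
      funext i
      refine Fin.cases (by simp) (fun j => ?_) i
      simp
    have hcomm : ∀ g h, ρ g * ρ h = ρ h * ρ g := fun g h => by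
      rw [← map_mul, ← map_mul, mul_comm]
    let e : W →ₗ[K] W := (2 : K)⁻¹ • (1 + s)
    have h22 : (2 : K)⁻¹ + (2 : K)⁻¹ = 1 := by
      rw [← two_mul, mul_inv_cancel₀ h2]
    have hse : s * e = e := by
      show s * ((2 : K)⁻¹ • (1 + s)) = (2 : K)⁻¹ • (1 + s)
      rw [mul_smul_comm, mul_add, hs2, mul_one, add_comm]
    have he1 : (1 : W →ₗ[K] W) - e = (2 : K)⁻¹ • (1 - s) := by
      show (1 : W →ₗ[K] W) - (2 : K)⁻¹ • (1 + s) = _
      rw [smul_sub, smul_add]
      have : (1 : W →ₗ[K] W) = (2 : K)⁻¹ • (1 : W →ₗ[K] W) + (2 : K)⁻¹ • (1 : W →ₗ[K] W) := by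
        rw [← add_smul, h22, one_smul]
      nth_rewrite 1 [this]
      abel
    have hse' : s * (1 - e) = -(1 - e) := by
      rw [he1, mul_smul_comm, mul_sub, hs2, mul_one, ← smul_neg, neg_sub]
    have hee : e * e = e := by
      show ((2 : K)⁻¹ • (1 + s)) * e = e
      rw [smul_mul_assoc, add_mul, one_mul, hse, ← two_smul K, smul_smul, inv_mul_cancel₀ h2,
        one_smul]
    have hρe : ∀ g, ρ g * e = e * ρ g := by
      intro g
      show ρ g * ((2 : K)⁻¹ • (1 + s)) = ((2 : K)⁻¹ • (1 + s)) * ρ g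
      rw [mul_smul_comm, smul_mul_assoc, mul_add, add_mul, mul_one, one_mul, hcomm]
    have hTe : e * T = T * e := by
      show ((2 : K)⁻¹ • (1 + s)) * T = T * ((2 : K)⁻¹ • (1 + s))
      rw [mul_smul_comm, smul_mul_assoc, mul_add, add_mul, mul_one, one_mul, hT]
    -- the sum over the group
    have hsum : ∑ g : Fin (k + 1) → ℤˣ, rk ((ρ g - 1) * T) =
        ∑ g : Fin k → ℤˣ, (rk ((ρ (ι g) - 1) * T) + rk ((ρ (ι g) * s - 1) * T)) := by
      have h3 : ∀ g : Fin k → ℤˣ, ρ (Fin.cons (-1) g) = ρ (ι g) * s := by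
        intro g
        show _ = ρ _ * ρ _
        rw [← map_mul]
        congr 1
        funext i
        refine Fin.cases (by simp [ι]) (fun j => ?_) i
        simp [ι]
      rw [← (Fin.consEquiv (fun _ : Fin (k + 1) => ℤˣ)).sum_comp, Fintype.sum_prod_type]
      have h4 : (Finset.univ : Finset ℤˣ) = {1, -1} := by decide
      rw [h4, Finset.sum_pair (by decide), ← Finset.sum_add_distrib]
      refine Finset.sum_congr rfl fun g _ => ?_
      congr 1
      show rk ((ρ (Fin.cons (-1) g) - 1) * T) = _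
      rw [h3]
    rw [hsum]
    -- bounds for each term
    have hterm : ∀ g : Fin k → ℤˣ, rk ((ρ (ι g) - 1) * T) + rk ((ρ (ι g) * s - 1) * T) ≤
        2 * rk ((ρ (ι g) - 1) * (e * T)) + rk ((1 - e) * T) := by
      intro g
      set a := ρ (ι g) with ha
      have haa : a * a = 1 := by
        rw [ha, ← map_mul, ← map_one ρ]
        congr 1
        funext i
        rcases Int.units_eq_one_or (ι g i) with h | h <;> simp [h]
      have hT1 : T = e * T + (1 - e) * T := by rw [sub_mul, one_mul]; abel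
      have hb1 : (a - 1) * T = (a - 1) * (e * T) + (a - 1) * ((1 - e) * T) := by
        rw [← mul_add, ← hT1]
      have hse2 : s * (e * T) = e * T := by rw [← mul_assoc, hse]
      have hse3 : s * ((1 - e) * T) = -((1 - e) * T) := by
        rw [← mul_assoc, hse', neg_mul]
      have hsT : s * T = e * T - (1 - e) * T := by
        calc s * T = s * (e * T + (1 - e) * T) := by rw [← hT1]
          _ = e * T - (1 - e) * T := by rw [mul_add, hse2, hse3, ← sub_eq_add_neg]
      have hb2 : (a * s - 1) * T = (a - 1) * (e * T) + -((a + 1) * ((1 - e) * T)) := by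
        have h20 : (a * s - 1) * T = a * (s * T) - T := by rw [sub_mul, one_mul, mul_assoc]
        have h21 : a * (s * T) - T = a * (e * T - (1 - e) * T) - (e * T + (1 - e) * T) := by
          rw [hsT, ← hT1]
        rw [h20, h21]
        generalize e * T = E
        generalize (1 - e) * T = D
        rw [mul_sub, sub_mul, add_mul, one_mul, one_mul]
        abel
      -- the complementary idempotents of `a`
      let f : W →ₗ[K] W := (2 : K)⁻¹ • (1 + a)
      have hff : f * f = f := by
        show ((2 : K)⁻¹ • (1 + a)) * ((2 : K)⁻¹ • (1 + a)) = (2 : K)⁻¹ • (1 + a)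
        rw [smul_mul_assoc, mul_smul_comm, add_mul, mul_add, mul_add, haa, one_mul, mul_one,
          one_mul]
        have : (1 : W →ₗ[K] W) + a + (a + 1) = (2 : K) • (1 + a) := by rw [two_smul]; abel
        rw [this, smul_smul, smul_smul, mul_assoc, inv_mul_cancel₀ h2, mul_one]
      have hfT : f * ((1 - e) * T) = ((1 - e) * T) * f := by
        have h5 : a * ((1 - e) * T) = ((1 - e) * T) * a := by
          have h50 : a * (1 - e) = (1 - e) * a := by
            rw [mul_sub, sub_mul, mul_one, one_mul, ha, hρe]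
          rw [← mul_assoc, h50, mul_assoc, ha, hT, mul_assoc]
        show ((2 : K)⁻¹ • (1 + a)) * _ = _ * ((2 : K)⁻¹ • (1 + a))
        rw [smul_mul_assoc, mul_smul_comm, add_mul, mul_add, one_mul, mul_one, h5]
      have h6 := rk_split hff hfT
      have h7 : (a + 1) * ((1 - e) * T) = (2 : K) • (f * ((1 - e) * T)) := by
        show _ = (2 : K) • (((2 : K)⁻¹ • (1 + a)) * ((1 - e) * T))
        rw [smul_mul_assoc, smul_smul, mul_inv_cancel₀ h2, one_smul, add_comm]
      have h8 : (a - 1) * ((1 - e) * T) = (-2 : K) • ((1 - f) * ((1 - e) * T)) := by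
        have h9 : (1 : W →ₗ[K] W) - f = (2 : K)⁻¹ • (1 - a) := by
          show (1 : W →ₗ[K] W) - (2 : K)⁻¹ • (1 + a) = _
          rw [smul_sub, smul_add]
          have : (1 : W →ₗ[K] W) =
              (2 : K)⁻¹ • (1 : W →ₗ[K] W) + (2 : K)⁻¹ • (1 : W →ₗ[K] W) := by
            rw [← add_smul, h22, one_smul]
          nth_rewrite 1 [this]
          abel
        rw [h9, smul_mul_assoc, smul_smul, neg_mul, mul_inv_cancel₀ h2, neg_smul, one_smul,
          ← neg_mul, neg_sub]
      have h10 : rk ((a - 1) * ((1 - e) * T)) ≤ rk ((1 - f) * ((1 - e) * T)) := by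
        rw [h8]; exact rk_smul_le _ _
      have h11 : rk ((a + 1) * ((1 - e) * T)) ≤ rk (f * ((1 - e) * T)) := by
        rw [h7]; exact rk_smul_le _ _
      have h12 : rk ((a - 1) * T) ≤ rk ((a - 1) * (e * T)) + rk ((a - 1) * ((1 - e) * T)) := by
        nth_rewrite 1 [hb1]; exact rk_add_le _ _
      have h13 : rk ((a * s - 1) * T) ≤
          rk ((a - 1) * (e * T)) + rk ((a + 1) * ((1 - e) * T)) := by
        rw [hb2]
        refine (rk_add_le _ _).trans ?_
        rw [rk_neg]
      omega
    have h3 := ih (ρ.comp ι) (e * T) (fun g => by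
      show ρ (ι g) * (e * T) = e * T * ρ (ι g)
      rw [← mul_assoc, hρe, mul_assoc, hT, mul_assoc])
    have h4 := rk_split hee hTe
    have h6 : Fintype.card (Fin k → ℤˣ) = 2 ^ k := by
      rw [Fintype.card_fun, Fintype.card_fin]
      rfl
    have h5 : ∑ g : Fin k → ℤˣ, (rk ((ρ (ι g) - 1) * T) + rk ((ρ (ι g) * s - 1) * T)) ≤
        2 * ∑ g : Fin k → ℤˣ, rk ((ρ (ι g) - 1) * (e * T)) + 2 ^ k * rk ((1 - e) * T) := by
      refine (Finset.sum_le_sum fun g _ => hterm g).trans (le_of_eq ?_)
      rw [Finset.sum_add_distrib, ← Finset.mul_sum, Finset.sum_const, Finset.card_univ, h6,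
        smul_eq_mul]
    have h7 : 2 * ∑ g : Fin k → ℤˣ, rk ((ρ (ι g) - 1) * (e * T)) ≤ 2 ^ k * rk (e * T) := h3
    calc 2 * ∑ g : Fin k → ℤˣ, (rk ((ρ (ι g) - 1) * T) + rk ((ρ (ι g) * s - 1) * T))
        ≤ 2 * (2 ^ k * rk (e * T) + 2 ^ k * rk ((1 - e) * T)) := by
          refine Nat.mul_le_mul_left _ (h5.trans ?_)
          omega
      _ = 2 ^ (k + 1) * (rk (e * T) + rk ((1 - e) * T)) := by ring
      _ ≤ 2 ^ (k + 1) * rk T := Nat.mul_le_mul_left _ h4

/-- commuting involutions, characteristic two -/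
theorem rk_two (h2 : (2 : K) = 0) {a : W →ₗ[K] W} (ha : a * a = 1) :
    2 * rk (a - 1) ≤ finrank K W := by
  have h3 : (a - 1) * (a - 1) = 0 := by
    rw [sub_mul, mul_sub, ha, mul_one, one_mul]
    have : (1 : W →ₗ[K] W) - a - (a - 1) = (2 : K) • (1 - a) := by rw [two_smul]; abel
    rw [this, h2, zero_smul]
  have h4 : range (a - 1) ≤ ker (a - 1) := by
    rintro _ ⟨x, rfl⟩
    rw [mem_ker]
    exact LinearMap.congr_fun h3 x
  have h5 := finrank_range_add_finrank_ker (a - 1)
  have h6 := Submodule.finrank_mono h4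
  unfold rk
  omega

/-- The sum of the ranks `rk (ρ g - 1)`. -/
theorem sum_rk_all (k : ℕ) (ρ : (Fin k → ℤˣ) →* (W →ₗ[K] W)) :
    2 * ∑ g, rk (ρ g - 1) ≤ 2 ^ k * finrank K W := by
  by_cases h2 : (2 : K) = 0
  · have h3 : ∀ g : Fin k → ℤˣ, 2 * rk (ρ g - 1) ≤ finrank K W := by
      intro g
      refine rk_two h2 ?_
      rw [← map_mul, ← map_one ρ]
      congr 1
      funext i
      rcases Int.units_eq_one_or (g i) with h | h <;> simp [h]
    rw [Finset.mul_sum]
    refine (Finset.sum_le_sum fun g _ => h3 g).trans ?_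
    rw [Finset.sum_const, Finset.card_univ, Fintype.card_fun, Fintype.card_fin]
    rfl
  · have h3 := sum_rk h2 k ρ 1 (fun g => by rw [mul_one, one_mul])
    simp only [mul_one] at h3
    refine h3.trans ?_
    unfold rk
    have : range (1 : W →ₗ[K] W) = ⊤ := LinearMap.range_id
    rw [this, finrank_top]

end

end Pool.Agent.TH194.LS
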