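import Pool.Agent.TH194.LS.Inv
import Pool.Agent.TH194.LS.Defs

/-! Elementary abelian `2`-groups are not `ε`-approximable for `ε > 1/2`. -/

set_option autoImplicit false
set_option linter.unusedSectionVars false

namespace Pool.Agent.TH194.LS

open Module LinearMap

section

variable {K : Type*} [Field K] {V : Type*} [AddCommGroup V] [Module K V] [FiniteDimensional K V]

/-- the codimension of a finite intersection of kernels -/
theorem codim_le {ι : Type*} [Fintype ι] (f : ι → V →ₗ[K] V) :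
    finrank K V ≤ finrank K ↥(⨅ i, ker (f i)) + ∑ i, rk (f i) := by
  let Φ : V →ₗ[K] (∀ i, range (f i)) := LinearMap.pi fun i => (f i).rangeRestrict
  have h1 : ker Φ = ⨅ i, ker (f i) := by
    rw [LinearMap.ker_pi]
    congr 1
    funext i
    exact LinearMap.ker_rangeRestrict (f i)
  have h2 := finrank_range_add_finrank_ker Φ
  have h3 : finrank K (range Φ) ≤ ∑ i, rk (f i) := by
    refine (Submodule.finrank_le _).trans ?_
    rw [Module.finrank_pi_fintype]
    exact le_rfl
  rw [h1] at h2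
  omega

/-- the rank of an endomorphism and of its restriction -/
theorem rk_restrict {f : V →ₗ[K] V} {W : Submodule K V} (hW : ∀ x ∈ W, f x ∈ W) :
    rk f + finrank K W ≤ rk (f.restrict hW) + finrank K V := by
  obtain ⟨W', hW'⟩ := W.exists_isCompl
  have h1 : range f = W.map f ⊔ W'.map f := by
    rw [← Submodule.map_sup, hW'.sup_eq_top, Submodule.map_top]
  have h2 : finrank K (W.map f) = rk (f.restrict hW) := by
    unfold rk
    have h3 : W.map f = (range (f.restrict hW)).map W.subtype := by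
      ext x
      constructor
      · rintro ⟨y, hy, rfl⟩
        exact ⟨f.restrict hW ⟨y, hy⟩, ⟨⟨y, hy⟩, rfl⟩, rfl⟩
      · rintro ⟨_, ⟨y, rfl⟩, rfl⟩
        exact ⟨y, y.2, rfl⟩
    rw [h3]
    exact LinearEquiv.finrank_eq (Submodule.equivMapOfInjective W.subtype W.injective_subtype
      _).symm
  have h4 : rk f ≤ finrank K (W.map f) + finrank K (W'.map f) := by
    unfold rk
    rw [h1]
    exact Submodule.finrank_add_le_finrank_add_finrank _ _
  have h5 := Submodule.finrank_map_le f W'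
  have h6 := Submodule.finrank_add_eq_of_isCompl hW'
  omega

end

section

variable {K : Type*} [Field K]

theorem rk_toLin' {n : ℕ} (M : Matrix (Fin n) (Fin n) K) : rk (Matrix.toLin' M) = M.rank := by
  unfold rk
  rfl

theorem not_approximable (K : Type*) [Field K] {ε : ℝ} {k : ℕ} (hk : 1 ≤ k)
    (h : (2 : ℝ) ^ k / 2 < (2 ^ k - 1) * ε) : ¬ Approximable K ε (Fin k → ℤˣ) := by
  classical
  intro happ
  have hcard : Fintype.card (Fin k → ℤˣ) = 2 ^ k := by
    rw [Fintype.card_fun, Fintype.card_fin]; rfl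
  set N : ℝ := 2 ^ k with hN
  have hN1 : (2 : ℝ) ≤ N := by
    calc (2 : ℝ) = 2 ^ 1 := by norm_num
      _ ≤ 2 ^ k := pow_le_pow_right₀ (by norm_num) hk
  -- the choice of `δ`
  set δ : ℝ := ((N - 1) * ε - N / 2) / (2 * (N + N ^ 3)) with hδ
  have hpos : 0 < (N - 1) * ε - N / 2 := by linarith
  have hden : 0 < 2 * (N + N ^ 3) := by positivity
  have hδ0 : 0 < δ := div_pos hpos hden
  obtain ⟨n, φ, hn, h1, h2⟩ := happ Finset.univ δ hδ0
  have hn0 : (0 : ℝ) < n := by exact_mod_cast hn
  let f : (Fin k → ℤˣ) → ((Fin n → K) →ₗ[K] (Fin n → K)) := fun g =>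
    Matrix.toLin' (φ g : Matrix (Fin n) (Fin n) K)
  let D : (Fin k → ℤˣ) × (Fin k → ℤˣ) → ((Fin n → K) →ₗ[K] (Fin n → K)) := fun p =>
    f p.1 * f p.2 - f (p.1 * p.2)
  have hD : ∀ p, (rk (D p) : ℝ) ≤ δ * n := by
    intro p
    have h3 := h1 p.1 (Finset.mem_univ _) p.2 (Finset.mem_univ _)
    unfold dRank at h3
    rw [div_lt_iff₀ hn0] at h3
    have h4 : D p = Matrix.toLin' (((φ p.1 * φ p.2 : GL (Fin n) K) : Matrix (Fin n) (Fin n) K) -
        (φ (p.1 * p.2) : Matrix (Fin n) (Fin n) K)) := by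
      rw [map_sub, Units.val_mul, Matrix.toLin'_mul]
      rfl
    rw [h4, rk_toLin']
    exact h3.le
  set W : Submodule K (Fin n → K) := ⨅ p, ker (D p) with hWdef
  have hmem : ∀ v, v ∈ W ↔ ∀ g h, f g (f h v) = f (g * h) v := by
    intro v
    rw [hWdef, Submodule.mem_iInf]
    constructor
    · intro hv g h
      have := hv (g, h)
      rw [mem_ker] at this
      exact sub_eq_zero.1 this
    · intro hv p
      rw [mem_ker]
      exact sub_eq_zero.2 (hv p.1 p.2)
  have hinv : ∀ g, ∀ x ∈ W, f g x ∈ W := by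
    intro g x hx
    rw [hmem] at hx ⊢
    intro a b
    rw [hx b g, hx a (b * g), hx (a * b) g, mul_assoc]
  have hone : ∀ x ∈ W, f 1 x = x := by
    intro x hx
    rw [hmem] at hx
    have h3 := hx 1 1
    rw [mul_one] at h3
    have h4 : Function.Injective (f 1) := by
      intro a b hab
      have h5 : (φ 1 : Matrix (Fin n) (Fin n) K).mulVec a =
          (φ 1 : Matrix (Fin n) (Fin n) K).mulVec b := by
        simpa [f, Matrix.toLin'_apply] using hab
      have h6 := congrArg (fun v => ((φ 1)⁻¹ : GL (Fin n) K).val.mulVec v) h5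
      simp only [Matrix.mulVec_mulVec] at h6
      have h7 : ((φ 1)⁻¹ : GL (Fin n) K).val * (φ 1 : Matrix (Fin n) (Fin n) K) = 1 := by
        rw [← Units.val_mul, inv_mul_cancel, Units.val_one]
      rw [h7, Matrix.one_mulVec, Matrix.one_mulVec] at h6
      exact h6
    exact h4 h3
  -- the codimension of `W`
  have hcodim : (n : ℝ) - finrank K W ≤ N ^ 2 * (δ * n) := by
    have h3 := codim_le D
    rw [Module.finrank_fintype_fun_eq_card, Fintype.card_fin] at h3
    have h4 : ((∑ p, rk (D p) : ℕ) : ℝ) ≤ N ^ 2 * (δ * n) := by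
      push_cast
      refine (Finset.sum_le_sum fun p _ => hD p).trans ?_
      rw [Finset.sum_const, Finset.card_univ, Fintype.card_prod, hcard, nsmul_eq_mul]
      push_cast
      rw [hN, sq]
    have h5 : (n : ℝ) ≤ finrank K W + ((∑ p, rk (D p) : ℕ) : ℝ) := by exact_mod_cast h3
    linarith
  -- the representation on `W`
  let ρ : (Fin k → ℤˣ) →* (W →ₗ[K] W) :=
    { toFun := fun g => (f g).restrict (hinv g)
      map_one' := by
        ext x
        exact congrFun (hone x x.2) _
      map_mul' := by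
        intro g h
        ext x
        have := (hmem x).1 x.2 g h
        exact congrFun this.symm _ }
  have hρ := sum_rk_all k ρ
  have hle : finrank K W ≤ n := by
    have := Submodule.finrank_le W
    rwa [Module.finrank_fintype_fun_eq_card, Fintype.card_fin] at this
  -- the rank of `φ g - φ 1`
  have hg : ∀ g, (((φ g : Matrix (Fin n) (Fin n) K) - (φ 1 : Matrix (Fin n) (Fin n) K)).rank : ℝ) ≤
      rk (ρ g - 1) + N ^ 2 * (δ * n) := by
    intro g
    have hWg : ∀ x ∈ W, (f g - f 1) x ∈ W := fun x hx =>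
      W.sub_mem (hinv g x hx) (hinv 1 x hx)
    have h3 := rk_restrict hWg
    rw [Module.finrank_fintype_fun_eq_card, Fintype.card_fin] at h3
    have h4 : (f g - f 1).restrict hWg = ρ g - 1 := by
      ext x
      show (f g x - f 1 x) _ = (f g x - x) _
      rw [hone x x.2]
    have h5 : rk (f g - f 1) = ((φ g : Matrix (Fin n) (Fin n) K) -
        (φ 1 : Matrix (Fin n) (Fin n) K)).rank := by
      rw [← rk_toLin', map_sub]
    rw [h4, h5] at h3
    have h6 : ((((φ g : Matrix (Fin n) (Fin n) K) -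
        (φ 1 : Matrix (Fin n) (Fin n) K)).rank : ℝ)) + finrank K W ≤ rk (ρ g - 1) + n := by
      exact_mod_cast h3
    linarith
  -- lower bound
  have hlow : ∀ g, g ≠ 1 → (ε - δ) * n <
      ((φ g : Matrix (Fin n) (Fin n) K) - (φ 1 : Matrix (Fin n) (Fin n) K)).rank := by
    intro g hg1
    have h3 := h2 g (Finset.mem_univ _) 1 (Finset.mem_univ _) hg1
    unfold dRank at h3
    rwa [lt_div_iff₀ hn0] at h3
  have hsum1 : (N - 1) * ((ε - δ) * n) ≤
      ∑ g ∈ (Finset.univ.erase (1 : Fin k → ℤˣ)), ((rk (ρ g - 1) : ℝ) + N ^ 2 * (δ * n)) := by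
    have h3 : ∀ g ∈ Finset.univ.erase (1 : Fin k → ℤˣ), (ε - δ) * n ≤
        (rk (ρ g - 1) : ℝ) + N ^ 2 * (δ * n) := fun g hg' =>
      (hlow g (Finset.ne_of_mem_erase hg')).le.trans (hg g)
    have h4 := Finset.card_nsmul_le_sum _ _ _ h3
    rw [Finset.card_erase_of_mem (Finset.mem_univ _), Finset.card_univ, hcard, nsmul_eq_mul] at h4
    have h5 : (((2 ^ k - 1 : ℕ)) : ℝ) = N - 1 := by
      rw [Nat.cast_sub Nat.one_le_two_pow]
      push_cast
      rw [hN]
    rw [h5] at h4
    exact h4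
  have hsum2 : ∑ g ∈ (Finset.univ.erase (1 : Fin k → ℤˣ)),
      ((rk (ρ g - 1) : ℝ) + N ^ 2 * (δ * n)) ≤ N / 2 * n + N * (N ^ 2 * (δ * n)) := by
    refine (Finset.sum_le_sum_of_subset_of_nonneg (Finset.erase_subset _ _)
      (fun g _ _ => by positivity)).trans ?_
    rw [Finset.sum_add_distrib, Finset.sum_const, Finset.card_univ, hcard, nsmul_eq_mul]
    have h3 : (2 : ℝ) * ∑ g, (rk (ρ g - 1) : ℝ) ≤ 2 ^ k * finrank K W := by exact_mod_cast hρ
    have h4 : (finrank K W : ℝ) ≤ n := by exact_mod_cast hle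
    have h5 : (2 : ℝ) ^ k * finrank K W ≤ N * n := mul_le_mul_of_nonneg_left h4 (by positivity)
    push_cast
    rw [← hN]
    linarith
  have hfin : (N - 1) * (ε - δ) * n ≤ (N / 2 + N ^ 3 * δ) * n := by
    have := hsum1.trans hsum2
    nlinarith
  have hfin2 := le_of_mul_le_mul_right hfin hn0
  have h3 : (N - 1) * ε - N / 2 ≤ (N - 1 + N ^ 3) * δ := by linarith
  have h4 : (N - 1 + N ^ 3) * δ ≤ (N + N ^ 3) * δ := by nlinarith
  have h5 : (N + N ^ 3) * δ = ((N - 1) * ε - N / 2) / 2 := by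
    rw [hδ]
    field_simp
  linarith

end

end Pool.Agent.TH194.LS
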