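import Pool.Agent.H16R2.RankAmp5
import Pool.Agent.TH194.LS.Neg

/-! Approximability does not depend on `ε` below `1/2`. -/

set_option autoImplicit false
set_option linter.unusedSectionVars false

universe u v

namespace Pool.Agent.TH194.LS

open Module LinearMap Pool.Agent.H16R2.RankAmp

section

variable {K : Type u} [Field K] {n : ℕ}

theorem rank_sub_le (A B C : Matrix (Fin n) (Fin n) K) :
    (A - C).rank ≤ (A - B).rank + (B - C).rank := by
  have h : A - C = (A - B) + (B - C) := by abel
  rw [h, ← rk_toLin', ← rk_toLin', ← rk_toLin', map_add]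
  exact rk_add_le _ _

theorem dRank_nonneg (A B : GL (Fin n) K) : 0 ≤ dRank A B := by unfold dRank; positivity

theorem dRank_triangle (A B C : GL (Fin n) K) : dRank A C ≤ dRank A B + dRank B C := by
  unfold dRank
  rw [← add_div]
  refine div_le_div_of_nonneg_right ?_ (by positivity)
  exact_mod_cast rank_sub_le _ _ _

theorem dRank_comm (A B : GL (Fin n) K) : dRank A B = dRank B A := by
  unfold dRank
  have : (A : Matrix (Fin n) (Fin n) K) - B = -((B : Matrix (Fin n) (Fin n) K) - A) := by abel
  rw [this, rank_neg']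

theorem dRank_self (A : GL (Fin n) K) : dRank A A = 0 := by
  unfold dRank
  rw [sub_self, Matrix.rank_zero]
  simp

theorem dRank_mul_right (A B C : GL (Fin n) K) : dRank (A * C) (B * C) = dRank A B := by
  unfold dRank
  rw [Units.val_mul, Units.val_mul, ← sub_mul, rank_mul_unit]

theorem dRank_mul_left (A B C : GL (Fin n) K) : dRank (C * A) (C * B) = dRank A B := by
  unfold dRank
  rw [Units.val_mul, Units.val_mul, ← mul_sub, rank_unit_mul]

theorem rkLen_eq (A : GL (Fin n) K) : rkLen A = dRank A 1 := by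
  unfold rkLen dRank
  rw [Units.val_one]

theorem rkLen_defect (A B C : GL (Fin n) K) : rkLen (C * B⁻¹ * A⁻¹) = dRank (A * B) C := by
  rw [rkLen_eq, dRank_comm (A * B) C, ← dRank_mul_right (C * B⁻¹ * A⁻¹) 1 (A * B)]
  congr 1
  · group
  · group

end

section

variable {K : Type u} [Field K] {G : Type v} [Group G]

theorem Approximable.mono {ε ε' : ℝ} (h : ε' ≤ ε) (ha : Approximable K ε G) :
    Approximable K ε' G := by
  intro F δ hδ
  obtain ⟨n, φ, hn, h1, h2⟩ := ha F δ hδ
  exact ⟨n, φ, hn, h1, fun g hg k hk hne => lt_of_le_of_lt (by linarith) (h2 g hg k hk hne)⟩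

/-- From the definition of the problem to rank lengths. -/
theorem rankApprox_of {ε : ℝ} (ha : Approximable K ε G) : RankApprox K G (fun _ => ε) := by
  classical
  intro F hF e he
  let F' : Finset G := insert 1 F
  obtain ⟨n, φ, hn, h1, h2⟩ := ha F' (e / 3) (by positivity)
  have h1F : (1 : G) ∈ F' := Finset.mem_insert_self _ _
  have hFF : ∀ g ∈ F, g ∈ F' := fun g hg => Finset.mem_insert_of_mem hg
  have h10 : dRank (φ 1) 1 < e / 3 := by
    have h3 := h1 1 h1F 1 h1F
    rw [mul_one] at h3
    have h4 := dRank_mul_right (φ 1) 1 (φ 1)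
    rw [one_mul] at h4
    rwa [h4] at h3
  refine ⟨n, fun g => if g = 1 then 1 else φ g, hn, by simp, fun g hg h hh => ?_⟩
  have hg1 : g ≠ 1 := fun h0 => hF (h0 ▸ hg)
  have hh1 : h ≠ 1 := fun h0 => hF (h0 ▸ hh)
  simp only [hg1, hh1, if_false]
  constructor
  · rw [rkLen_defect]
    have h3 := h1 g (hFF g hg) h (hFF h hh)
    split_ifs with h0
    · rw [h0] at h3
      have := dRank_triangle (φ g * φ h) (φ 1) 1
      linarith
    · linarith
  · rw [rkLen_eq]
    have h3 := h2 g (hFF g hg) 1 h1F hg1
    have h4 := dRank_triangle (φ g) 1 (φ 1)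
    rw [dRank_comm 1 (φ 1)] at h4
    linarith

/-- From rank lengths to the definition of the problem. -/
theorem approximable_of {ε : ℝ} (ha : RankApprox K G (fun _ => ε)) : Approximable K ε G := by
  classical
  intro F δ hδ
  let F' : Finset G := (F ∪ (F ×ˢ F).image (fun p => p.1⁻¹ * p.2)).erase 1
  obtain ⟨n, Φ, hn, h1, h2⟩ := ha F' (Finset.notMem_erase _ _) (δ / 2) (by positivity)
  have hF' : ∀ g ∈ F, g ≠ 1 → g ∈ F' := fun g hg h0 =>
    Finset.mem_erase.2 ⟨h0, Finset.mem_union_left _ hg⟩
  have hmul : ∀ g ∈ F', ∀ h ∈ F', dRank (Φ g * Φ h) (Φ (g * h)) < δ / 2 := by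
    intro g hg h hh
    rw [← rkLen_defect]
    exact (h2 g hg h hh).1
  have hlen : ∀ g ∈ F', ε - δ / 2 < dRank (Φ g) 1 := by
    intro g hg
    rw [← rkLen_eq]
    exact (h2 g hg g hg).2
  refine ⟨n, Φ, hn, fun g hg h hh => ?_, fun g hg h hh hne => ?_⟩
  · by_cases hg1 : g = 1
    · rw [hg1, h1, one_mul, one_mul, dRank_self]; exact hδ
    by_cases hh1 : h = 1
    · rw [hh1, h1, mul_one, mul_one, dRank_self]; exact hδ
    have := hmul g (hF' g hg hg1) h (hF' h hh hh1)
    linarith
  · by_cases hg1 : g = 1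
    · have hh1 : h ≠ 1 := fun h0 => hne (hg1.trans h0.symm)
      rw [hg1, h1, dRank_comm]
      have := hlen h (hF' h hh hh1)
      linarith
    · set x := g⁻¹ * h with hx
      have hx1 : x ≠ 1 := by
        intro h0
        exact hne (by rw [hx, inv_mul_eq_one] at h0; exact h0)
      have hxF : x ∈ F' := Finset.mem_erase.2 ⟨hx1, Finset.mem_union_right _
        (Finset.mem_image.2 ⟨(g, h), Finset.mem_product.2 ⟨hg, hh⟩, rfl⟩)⟩
      have h3 := hmul g (hF' g hg hg1) x hxF
      have h4 : g * x = h := by rw [hx, mul_inv_cancel_left]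
      rw [h4] at h3
      have h5 := hlen x hxF
      have h6 := dRank_mul_left (Φ x) 1 (Φ g)
      rw [mul_one] at h6
      rw [← h6] at h5
      have h7 := dRank_triangle (Φ g * Φ x) (Φ h) (Φ g)
      rw [dRank_comm (Φ h) (Φ g)] at h7
      linarith

/-- Amplification: `ε`-approximable groups, `ε > 0`, are `1/2`-approximable. -/
theorem half_of {ε : ℝ} (hε : 0 < ε) (ha : Approximable K ε G) : Approximable K (1 / 2) G := by
  refine approximable_of ?_
  have h1 := (main (K := K) (Γ := G) (fun _ => ε) (fun _ _ => hε) (rankApprox_of ha)).rankApprox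
  intro F hF e he
  obtain ⟨n, Φ, hn, h2, h3⟩ := h1 F hF e he
  refine ⟨n, Φ, hn, h2, fun g hg h hh => ⟨(h3 g hg h hh).1, ?_⟩⟩
  refine lt_of_le_of_lt ?_ (h3 g hg h hh).2
  have hg1 : g ≠ 1 := fun h0 => hF (h0 ▸ hg)
  have h4 : 1 / (orderOf g : ℝ) ≤ 1 / 2 := by
    rcases Nat.eq_zero_or_pos (orderOf g) with h0 | h0
    · rw [h0]; norm_num
    · have h5 : orderOf g ≠ 1 := fun h6 => hg1 (orderOf_eq_one_iff.1 h6)
      have h6 : (2 : ℝ) ≤ orderOf g := by exact_mod_cast (by omega : 2 ≤ orderOf g)
      exact one_div_le_one_div_of_le (by norm_num) h6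
  linarith

/-- A finite group is approximable. -/
theorem finite_approx (K : Type u) [Field K] (G : Type) [Group G] [Fintype G] [DecidableEq G] :
    Approximable K (1 / 2) G := by
  have hc : 0 < Fintype.card G := Fintype.card_pos
  let e : G ≃ Fin (Fintype.card G) := Fintype.equivFin G
  let P : G →* Matrix (Fin (Fintype.card G)) (Fin (Fintype.card G)) K :=
    (Matrix.permMatrixHom (n := Fin (Fintype.card G)) (R := K)).comp
      (e.permCongrHom.toMonoidHom.comp (MulAction.toPermHom G G))
  let φ : G →* GL (Fin (Fintype.card G)) K := MonoidHom.toHomUnits P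
  have hφ : ∀ g, g ≠ 1 → φ g ≠ 1 := by
    intro g hg h0
    have h1 : P g = 1 := by
      have := congrArg Units.val h0
      simpa [φ] using this
    have h2 : ((e.permCongrHom (MulAction.toPermHom G G g))⁻¹).permMatrix K = 1 := h1
    have h3 := congrFun (congrFun h2 (e g)) (e 1)
    rw [Equiv.Perm.permMatrix, PEquiv.toMatrix_apply] at h3
    have h4 : (((e.permCongrHom (MulAction.toPermHom G G g))⁻¹).toPEquiv (e g)) =
        some (e 1) := by
      rw [Equiv.toPEquiv_apply]
      congr 1
      rw [Equiv.Perm.inv_eq_iff_eq]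
      show e g = e (g • e.symm (e 1))
      rw [Equiv.symm_apply_apply, smul_eq_mul, mul_one]
    rw [h4] at h3
    simp only [Option.mem_def, if_true] at h3
    rw [Matrix.one_apply_ne (fun h5 => hg (e.injective h5))] at h3
    exact one_ne_zero h3
  have key : RankApprox K G (fun _ => 1 / (Fintype.card G : ℝ)) := by
    intro F hF ε hε
    refine ⟨Fintype.card G, φ, hc, map_one φ, fun g hg h _ => ⟨?_, ?_⟩⟩
    · have h1 : φ (g * h) * (φ h)⁻¹ * (φ g)⁻¹ = 1 := by rw [map_mul]; group
      rw [h1, rkLen_eq, dRank_self]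
      exact hε
    · have h1 : φ g ≠ 1 := hφ g fun h0 => hF (h0 ▸ hg)
      have h2 : 1 ≤ ((φ g : Matrix (Fin (Fintype.card G)) (Fin (Fintype.card G)) K) - 1).rank := by
        rw [Nat.one_le_iff_ne_zero]
        intro h3
        apply h1
        rw [← rk_toLin'] at h3
        unfold rk at h3
        rw [Submodule.finrank_eq_zero, LinearMap.range_eq_bot] at h3
        have h4 : (φ g : Matrix (Fin (Fintype.card G)) (Fin (Fintype.card G)) K) - 1 = 0 :=
          (Matrix.toLin').map_eq_zero_iff.1 h3
        exact Units.ext (by rw [sub_eq_zero] at h4; simpa using h4)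
      unfold rkLen
      have h3 : (1 : ℝ) ≤ ((φ g : Matrix (Fin (Fintype.card G)) (Fin (Fintype.card G)) K) -
          1).rank := by exact_mod_cast h2
      have h4 : (1 : ℝ) / (Fintype.card G) ≤ ((φ g : Matrix (Fin (Fintype.card G))
          (Fin (Fintype.card G)) K) - 1).rank / (Fintype.card G) :=
        div_le_div_of_nonneg_right h3 (by positivity)
      linarith
  exact half_of (by positivity) (approximable_of key)

/-- The answer. -/
theorem threshold (K : Type u) [Field K] {ε : ℝ} (hε : 0 < ε) :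
    (∀ (G : Type) [Group G] [Countable G], Approximable K ε G ↔ Approximable K (1 / 4) G) ↔
      ε ≤ 1 / 2 := by
  constructor
  · intro h
    by_contra hcon
    push Not at hcon
    obtain ⟨k, hk⟩ := pow_unbounded_of_one_lt (ε / (ε - 1 / 2)) (one_lt_two (α := ℝ))
    have h0 : 0 < ε - 1 / 2 := by linarith
    have h1 : ε < 2 ^ k * (ε - 1 / 2) := by rwa [div_lt_iff₀ h0] at hk
    have hk1 : 1 ≤ k := by
      rcases Nat.eq_zero_or_pos k with h2 | h2
      · rw [h2] at h1
        norm_num at h1
        linarith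
      · exact h2
    refine not_approximable K hk1 (ε := ε) (by linarith) ?_
    rw [h]
    exact (finite_approx K (Fin k → ℤˣ)).mono (by norm_num)
  · intro h G _ _
    exact ⟨fun h1 => (half_of hε h1).mono (by norm_num),
      fun h1 => (half_of (by norm_num) h1).mono h⟩

end

end Pool.Agent.TH194.LS
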